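import Pool.Agent.R29.IDF.Defs

/-! Piece ID-AB of the project on MP_dbca9e_al: finite abelian groups. -/

namespace R29ID

theorem ab : AB := by
  intro N _ _ _
  classical
  obtain ⟨ι, hι, n, hn, ⟨e⟩⟩ := CommGroup.equiv_prod_multiplicative_zmod_of_finite N
  have hne : ∀ i, NeZero (n i) := fun i => ⟨by have := hn i; omega⟩
  refine ⟨⟨(i : ι) → ZMod (n i), inferInstance, inferInstance,
    ⟨e.trans (MulEquiv.piMultiplicative (fun i => ZMod (n i))).symm⟩⟩, ?_⟩
  by_cases h : ∃ i0, 3 ≤ n i0
  · left
    obtain ⟨i0, h3⟩ := h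
    let s : ((i : ι) → Multiplicative (ZMod (n i))) ≃*
        Multiplicative (ZMod (n i0)) × ((i : {i // i ≠ i0}) → Multiplicative (ZMod (n i))) :=
      { Equiv.piSplitAt i0 (fun i => Multiplicative (ZMod (n i))) with
        map_mul' := fun _ _ => rfl }
    let p : ((i : {i // i ≠ i0}) → Multiplicative (ZMod (n i))) ≃*
        Multiplicative ((i : {i // i ≠ i0}) → ZMod (n i)) :=
      (MulEquiv.piMultiplicative (fun i : {i // i ≠ i0} => ZMod (n i))).symm
    exact ⟨n i0, h3, (i : {i // i ≠ i0}) → ZMod (n i), inferInstance, inferInstance,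
      ⟨(e.trans s).trans (MulEquiv.prodCongr (MulEquiv.refl _) p)⟩⟩
  · right
    push Not at h
    have hn2 : n = fun _ => 2 := by
      funext i
      have h1 := hn i
      have h2 := h i
      omega
    subst hn2
    let r : (ι → Multiplicative (ZMod 2)) ≃* (Fin (Fintype.card ι) → Multiplicative (ZMod 2)) :=
      { Equiv.arrowCongr (Fintype.equivFin ι) (Equiv.refl (Multiplicative (ZMod 2))) with
        map_mul' := fun _ _ => rfl }
    refine ⟨Fintype.card ι, ?_, ⟨(e.trans r).trans
      (MulEquiv.piMultiplicative (fun _ : Fin (Fintype.card ι) => ZMod 2)).symm⟩⟩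
    rw [Nat.one_le_iff_ne_zero]
    intro h0
    rw [Fintype.card_eq_zero_iff] at h0
    have : Subsingleton N := e.toEquiv.subsingleton
    exact not_subsingleton N this

end R29ID
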