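import Pool.Agent.R29.IDF.Defs

namespace R29ID

theorem notPropD_of_abelian (hcrit : CRIT) (hut5 : UT5) (hheis : HEIS) (hdihc : DIHC)
    (hdihr : DIHR) (hd8 : D8) (hp2 : P2) (hpk : PK) (hab : AB)
    (G : Type) [Group G] [Finite G] (hne : commutator G ≠ ⊥)
    (hcomm : ∀ a ∈ commutator G, ∀ b ∈ commutator G, a * b = b * a) : ¬ PropD G := by
  intro hD
  letI : CommGroup (commutator G) :=
    { (inferInstance : Group (commutator G)) with
      mul_comm := fun a b => Subtype.ext (hcomm a a.2 b b.2) }
  haveI : Nontrivial (commutator G) := (Subgroup.nontrivial_iff_ne_bot _).2 hne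
  obtain ⟨⟨R, _, _, ⟨eR⟩⟩, hcase⟩ := hab (commutator G)
  obtain ⟨K, _, _, ⟨eK⟩⟩ := hut5 R
  have h1 : Integrable (commutator K) := ⟨K, inferInstance, ⟨MulEquiv.refl _⟩⟩
  have hG : Integrable G := (hD (commutator K) ⟨eK.trans eR.symm⟩).1 h1
  have key : ∃ (P : Type) (_ : Group P) (_ : Finite P),
      Nonempty (commutator P ≃* commutator G) ∧ HasCyc P := by
    rcases hcase with ⟨m, hm, R1, _, _, ⟨e1⟩⟩ | ⟨k, hk, ⟨e1⟩⟩
    · obtain ⟨Y, _, _, ⟨eY⟩, hY⟩ := hheis R1
      haveI : NeZero (2 * m) := ⟨by omega⟩
      obtain ⟨ed⟩ := hdihc m hm Y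
      exact ⟨DihedralGroup (2 * m) × Y, inferInstance, inferInstance,
        ⟨(ed.trans (MulEquiv.prodCongr (MulEquiv.refl _) eY)).trans e1.symm⟩, hdihr m hm Y hY⟩
    · rcases Nat.lt_or_ge k 3 with h3 | h3
      · interval_cases k
        · refine ⟨DihedralGroup 4, inferInstance, inferInstance, ?_, hd8.2⟩
          obtain ⟨e8⟩ := hd8.1
          have f : ZMod 2 ≃+ (Fin 1 → ZMod 2) :=
            { toFun := fun x _ => x, invFun := fun g => g 0,
              left_inv := fun x => rfl,
              right_inv := fun g => by ext i; fin_cases i; rfl,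
              map_add' := fun x y => rfl }
          exact ⟨(e8.trans (AddEquiv.toMultiplicative f)).trans e1.symm⟩
        · obtain ⟨P, _, _, ⟨eP⟩, hcyc⟩ := hp2
          exact ⟨P, inferInstance, inferInstance, ⟨eP.trans e1.symm⟩, hcyc⟩
      · obtain ⟨n, rfl⟩ : ∃ n, k = n + 1 := ⟨k - 1, by omega⟩
        obtain ⟨P, _, _, ⟨eP⟩, hcyc⟩ := hpk n (by omega)
        refine ⟨P, inferInstance, inferInstance, ⟨(eP.trans ?_).trans e1.symm⟩, hcyc⟩
        exact
          { toFun := fun x => Multiplicative.ofAdd
              (Fin.cons (Multiplicative.toAdd x.2) (Multiplicative.toAdd x.1) : Fin (n + 1) → ZMod 2)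
            invFun := fun g => (Multiplicative.ofAdd (fun i : Fin n => Multiplicative.toAdd g i.succ),
              Multiplicative.ofAdd (Multiplicative.toAdd g 0))
            left_inv := fun x => by
              rcases x with ⟨x1, x2⟩
              rfl
            right_inv := fun g => by
              apply Multiplicative.toAdd.injective
              funext i
              refine Fin.cases ?_ (fun j => ?_) i
              · rfl
              · rfl
            map_mul' := fun x y => by
              apply Multiplicative.toAdd.injective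
              funext i
              refine Fin.cases ?_ (fun j => ?_) i
              · rfl
              · rfl }
  obtain ⟨P, _, _, hP, hcyc⟩ := key
  exact hcrit P hcyc ((hD P hP).2 hG)

/-! transport along isomorphisms -/

theorem commutator_eq_top_congr {A B : Type} [Group A] [Group B] (e : A ≃* B)
    (h : commutator B = ⊤) : commutator A = ⊤ := by
  have h2 : (commutator A).map e.toMonoidHom = commutator B := by
    rw [commutator_def, commutator_def, Subgroup.map_commutator]
    rw [Subgroup.map_top_of_surjective _ e.surjective]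
  rw [h] at h2
  rw [eq_top_iff]
  intro x _
  have : e x ∈ (commutator A).map e.toMonoidHom := by rw [h2]; trivial
  obtain ⟨y, hy, hxy⟩ := this
  have : y = x := e.injective hxy
  exact this ▸ hy

theorem center_eq_bot_congr {A B : Type} [Group A] [Group B] (e : A ≃* B)
    (h : Subgroup.center B = ⊥) : Subgroup.center A = ⊥ := by
  rw [eq_bot_iff]
  intro x hx
  have : e x ∈ Subgroup.center B := by
    rw [Subgroup.mem_center_iff] at hx ⊢
    intro b
    obtain ⟨a, rfl⟩ := e.surjective b
    rw [← map_mul, ← map_mul, hx a]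
  rw [h, Subgroup.mem_bot] at this
  rw [Subgroup.mem_bot]
  exact e.injective (by rw [this, map_one])

theorem inner_congr {A B : Type} [Group A] [Group B] (e : A ≃* B)
    (h : ∀ φ : MulAut B, ∃ g : B, φ = MulAut.conj g) :
    ∀ φ : MulAut A, ∃ g : A, φ = MulAut.conj g := by
  intro φ
  obtain ⟨g, hg⟩ := h ((e.symm.trans φ).trans e)
  refine ⟨e.symm g, ?_⟩
  ext x
  have := congrArg (fun ψ : MulAut B => ψ (e x)) hg
  simp only [MulEquiv.trans_apply, MulEquiv.symm_apply_apply, MulAut.conj_apply] at this
  apply e.injective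
  rw [MulAut.conj_apply, map_mul, map_mul, map_inv, MulEquiv.apply_symm_apply]
  exact this

theorem propD_of_complete (hcpl : CPL) (G : Type) [Group G] [Finite G]
    (h1 : commutator (commutator G) = ⊤) (h2 : Subgroup.center (commutator G) = ⊥)
    (h3 : ∀ φ : MulAut (commutator G), ∃ g : commutator G, φ = MulAut.conj g) :
    PropD G ∧ Integrable G := by
  have hG : Integrable G := hcpl G h1 h2 h3
  refine ⟨?_, hG⟩
  intro H _ _ ⟨e⟩
  exact ⟨fun _ => hG, fun _ => hcpl H (commutator_eq_top_congr e h1) (center_eq_bot_congr e h2)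
    (inner_congr e h3)⟩

/-- conjugating automorphism groups -/
def autCongr {A B : Type} [Group A] [Group B] (e : A ≃* B) : MulAut A ≃* MulAut B where
  toFun φ := (e.symm.trans φ).trans e
  invFun ψ := (e.trans ψ).trans e.symm
  left_inv φ := by ext x; simp
  right_inv ψ := by ext x; simp
  map_mul' φ ψ := by ext x; simp

theorem derived_congr {A B : Type} [Group A] [Group B] (e : A ≃* B)
    (h : derivedSeries B 2 = ⊥) : derivedSeries A 2 = ⊥ := by
  have h2 : (derivedSeries A 2).map e.toMonoidHom ≤ derivedSeries B 2 :=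
    map_derivedSeries_le_derivedSeries e.toMonoidHom 2
  rw [h] at h2
  rw [eq_bot_iff]
  intro x hx
  have : e x ∈ (derivedSeries A 2).map e.toMonoidHom := ⟨x, hx, rfl⟩
  have := h2 this
  rw [Subgroup.mem_bot] at this ⊢
  exact e.injective (by rw [this, map_one])

theorem propD_of_nsd (hnsd : NSD) (G : Type) [Group G] [Finite G] (V : Subgroup (commutator G))
    (h1 : V.Characteristic) (h2 : derivedSeries (MulAut V) 2 = ⊥)
    (h3 : ¬ (⊤ : Subgroup (commutator G)) ≤ Subgroup.centralizer (V : Set (commutator G))) :
    PropD G ∧ ¬ Integrable G := by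
  have hG : ¬ Integrable G := hnsd G V h1 h2 h3
  refine ⟨?_, hG⟩
  intro H _ _ ⟨e⟩
  have hH : ¬ Integrable H := by
    have hmem : ∀ x : commutator H, x ∈ V.comap e.toMonoidHom ↔ e x ∈ V := fun x => Iff.rfl
    let f : (V.comap e.toMonoidHom : Subgroup (commutator H)) ≃* V :=
      { toFun := fun x => ⟨e x.1, x.2⟩
        invFun := fun y => ⟨e.symm y.1, by
          show e (e.symm y.1) ∈ V
          rw [MulEquiv.apply_symm_apply]; exact y.2⟩
        left_inv := fun x => by ext; simp
        right_inv := fun y => by ext; simp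
        map_mul' := fun x y => Subtype.ext (map_mul e x.1 y.1) }
    refine hnsd H (V.comap e.toMonoidHom) ?_ (derived_congr (autCongr f) h2) ?_
    · rw [Subgroup.characteristic_iff_comap_le] at h1 ⊢
      intro φ x hx
      have hx' : e (φ x) ∈ V := hx
      have := h1 ((e.symm.trans φ).trans e)
      have hy : e x ∈ V.comap ((e.symm.trans φ).trans e).toMonoidHom := by
        show e (φ (e.symm (e x))) ∈ V
        rw [MulEquiv.symm_apply_apply]; exact hx'
      exact this hy
    · intro hle
      apply h3
      intro y _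
      rw [Subgroup.mem_centralizer_iff]
      intro v hv
      have hv' : e.symm v ∈ (V.comap e.toMonoidHom : Set (commutator H)) := by
        show e (e.symm v) ∈ V
        rw [MulEquiv.apply_symm_apply]; exact hv
      have := (Subgroup.mem_centralizer_iff.1 (hle (Subgroup.mem_top (e.symm y)))) _ hv'
      have h4 := congrArg e this
      rw [map_mul, map_mul, MulEquiv.apply_symm_apply, MulEquiv.apply_symm_apply] at h4
      exact h4
  exact ⟨fun h => absurd h hH, fun h => absurd h hG⟩

end R29ID
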