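import Pool.Agent.R29.IDF.Defs

set_option autoImplicit false

namespace R29ID.CplAux

/-- a group whose commutator subgroup is the abelian group `C` -/
@[ext] structure Hei (C : Type) where
  m : ℤ
  b : C
  c : C

variable {C : Type} [CommGroup C]

instance : Mul (Hei C) := ⟨fun x y => ⟨x.m + y.m, x.b * y.b, x.c * y.c * y.b ^ x.m⟩⟩
instance : One (Hei C) := ⟨⟨0, 1, 1⟩⟩
instance : Inv (Hei C) := ⟨fun x => ⟨-x.m, x.b⁻¹, x.c⁻¹ * x.b ^ x.m⟩⟩

@[simp] lemma mul_m (x y : Hei C) : (x * y).m = x.m + y.m := rfl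
@[simp] lemma mul_b (x y : Hei C) : (x * y).b = x.b * y.b := rfl
@[simp] lemma mul_c (x y : Hei C) : (x * y).c = x.c * y.c * y.b ^ x.m := rfl
@[simp] lemma one_m : (1 : Hei C).m = 0 := rfl
@[simp] lemma one_b : (1 : Hei C).b = 1 := rfl
@[simp] lemma one_c : (1 : Hei C).c = 1 := rfl
@[simp] lemma inv_m (x : Hei C) : (x⁻¹).m = -x.m := rfl
@[simp] lemma inv_b (x : Hei C) : (x⁻¹).b = x.b⁻¹ := rfl
@[simp] lemma inv_c (x : Hei C) : (x⁻¹).c = x.c⁻¹ * x.b ^ x.m := rfl

instance : Group (Hei C) := Group.ofLeftAxioms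
  (by
    intro x y z
    ext
    · simp [add_assoc]
    · simp [mul_assoc]
    · simp only [mul_c, mul_b, mul_m, mul_zpow, zpow_add]
      simp only [mul_assoc, mul_comm, mul_left_comm])
  (by
    intro x
    ext
    · simp
    · simp
    · simp)
  (by
    intro x
    ext
    · simp
    · simp
    · simp only [mul_c, inv_c, inv_m, one_c, zpow_neg]
      rw [mul_right_comm (x.c⁻¹), inv_mul_cancel, one_mul, mul_inv_cancel])

def zt (C : Type) [CommGroup C] : C →* Hei C where
  toFun c := ⟨0, 1, c⟩
  map_one' := rfl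
  map_mul' x y := by
    ext <;> simp

lemma zt_inj : Function.Injective (zt C) := by
  intro x y h
  exact congrArg Hei.c h

open scoped commutatorElement in
lemma comm_hei : commutator (Hei C) = (zt C).range := by
  apply le_antisymm
  · rw [commutator_def, Subgroup.commutator_le]
    intro x _ y _
    refine ⟨y.b ^ x.m * (x.b ^ y.m)⁻¹, ?_⟩
    have : zt C (y.b ^ x.m * (x.b ^ y.m)⁻¹) * (y * x) = x * y := by
      ext
      · simp [zt, add_comm]
      · simp [zt, mul_comm]
      · simp only [zt, MonoidHom.coe_mk, OneHom.coe_mk, mul_c, mul_b, zpow_zero, mul_one]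
        rw [mul_assoc, mul_comm (x.c) (y.c)]
        have : (x.b ^ y.m)⁻¹ * (y.c * x.c * x.b ^ y.m) = y.c * x.c := by
          rw [mul_comm (y.c * x.c), ← mul_assoc, inv_mul_cancel, one_mul]
        rw [this, mul_comm]
    rw [commutatorElement_def, ← this]
    group
  · rintro _ ⟨c, rfl⟩
    have : zt C c = ⁅(⟨1, 1, 1⟩ : Hei C), (⟨0, c, 1⟩ : Hei C)⁆ := by
      rw [commutatorElement_def, eq_mul_inv_iff_mul_eq, eq_mul_inv_iff_mul_eq]
      ext <;> simp [zt]
    rw [this, commutator_def]
    exact Subgroup.commutator_mem_commutator (Subgroup.mem_top _) (Subgroup.mem_top _)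

open scoped commutatorElement in
theorem gen {H : Type} [Group H] (hperf : commutator (commutator H) = ⊤)
    (hcen : Subgroup.center (commutator H) = ⊥)
    (hinn : ∀ φ : MulAut (commutator H), ∃ n : commutator H, φ = MulAut.conj n) :
    ∃ (K : Type) (_ : Group K), Nonempty (commutator K ≃* H) := by
  set N : Subgroup H := commutator H with hN
  set Z : Subgroup H := Subgroup.centralizer (N : Set H) with hZ
  have hNZ : ∀ x, x ∈ N → x ∈ Z → x = 1 := by
    intro x hx hxZ
    have : (⟨x, hx⟩ : N) ∈ Subgroup.center N := by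
      rw [Subgroup.mem_center_iff]
      intro g
      apply Subtype.ext
      exact (Subgroup.mem_centralizer_iff.1 hxZ) g g.2
    rw [hcen, Subgroup.mem_bot] at this
    exact congrArg Subtype.val this
  have hab : ∀ a b : Z, a * b = b * a := by
    intro a b
    apply Subtype.ext
    have h1 : ⁅(a : H), (b : H)⁆ ∈ N := by
      rw [hN, commutator_def]
      exact Subgroup.commutator_mem_commutator (Subgroup.mem_top _) (Subgroup.mem_top _)
    have h2 : ⁅(a : H), (b : H)⁆ ∈ Z := by
      rw [commutatorElement_def]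
      exact Z.mul_mem (Z.mul_mem (Z.mul_mem a.2 b.2) (Z.inv_mem a.2)) (Z.inv_mem b.2)
    have h3 := hNZ _ h1 h2
    exact (commutatorElement_eq_one_iff_mul_comm.1 h3)
  letI : CommGroup Z := { (inferInstance : Group Z) with mul_comm := hab }
  -- the isomorphism N × Z ≃* H
  have hcomm : ∀ (n : N) (z : Z), (n : H) * z = z * n := by
    intro n z
    exact (Subgroup.mem_centralizer_iff.1 z.2) n n.2
  let f : N × Z →* H :=
    { toFun := fun p => (p.1 : H) * p.2
      map_one' := by simp
      map_mul' := by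
        intro p q
        simp only [Prod.fst_mul, Prod.snd_mul, Subgroup.coe_mul]
        have : ((p.1 : H) * q.1) * ((p.2 : H) * q.2) = (p.1 : H) * ((q.1 : H) * p.2) * q.2 := by
          group
        rw [this, hcomm q.1 p.2]
        group }
  have hf : Function.Bijective f := by
    constructor
    · rw [injective_iff_map_eq_one]
      intro p hp
      have h1 : (p.1 : H) * p.2 = 1 := hp
      have h2 : (p.1 : H) = ((p.2 : H))⁻¹ := eq_inv_of_mul_eq_one_left h1
      have h3 : (p.1 : H) ∈ Z := by rw [h2]; exact Z.inv_mem p.2.2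
      have h4 := hNZ _ p.1.2 h3
      have h5 : (p.2 : H) = 1 := by rw [h4, one_mul] at h1; exact h1
      exact Prod.ext (Subtype.ext h4) (Subtype.ext h5)
    · intro h
      obtain ⟨n, hn⟩ := hinn (MulAut.conjNormal h)
      have hz : (n : H)⁻¹ * h ∈ Z := by
        rw [hZ, Subgroup.mem_centralizer_iff]
        intro x hx
        have h1 : ((MulAut.conjNormal h : MulAut N) ⟨x, hx⟩ : H) =
            ((MulAut.conj n : MulAut N) ⟨x, hx⟩ : H) := by rw [hn]
        rw [MulAut.conjNormal_apply] at h1
        have h2 : h * x * h⁻¹ = (n : H) * x * (n : H)⁻¹ := h1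
        have h3 : h * x = (n : H) * x * (n : H)⁻¹ * h := by rw [← h2]; group
        rw [mul_assoc, h3]
        group
      exact ⟨(n, ⟨_, hz⟩), by simp [f]⟩
  let e1 : N × Z ≃* H := MulEquiv.ofBijective f hf
  -- the group K
  let g : N × Z →* N × Hei Z := MonoidHom.prodMap (MonoidHom.id N) (zt Z)
  have hg : Function.Injective g := by
    intro p q hpq
    have h1 : (g p).1 = (g q).1 := by rw [hpq]
    have h2 : (g p).2 = (g q).2 := by rw [hpq]
    change p.1 = q.1 at h1
    change zt Z p.2 = zt Z q.2 at h2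
    exact Prod.ext h1 (zt_inj h2)
  have hrange : g.range = commutator (N × Hei Z) := by
    rw [commutator_def, ← Subgroup.top_prod_top, Subgroup.commutator_prod_prod,
      ← commutator_def, ← commutator_def, hperf, comm_hei]
    ext p
    rw [MonoidHom.mem_range, Subgroup.mem_prod]
    constructor
    · rintro ⟨q, rfl⟩
      exact ⟨Subgroup.mem_top _, ⟨q.2, rfl⟩⟩
    · rintro ⟨-, ⟨c, hc⟩⟩
      exact ⟨(p.1, c), Prod.ext rfl hc⟩
  refine ⟨N × Hei Z, inferInstance, ⟨?_⟩⟩
  exact ((MulEquiv.subgroupCongr hrange.symm).trans (MonoidHom.ofInjective hg).symm).trans e1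

end R29ID.CplAux

namespace R29ID

theorem cpl : CPL := by
  intro H _ _ h1 h2 h3
  exact CplAux.gen h1 h2 h3

end R29ID
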