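import Pool.Agent.R29.IDF.NSD

namespace R29ID
open NSDp

theorem mulAut_comm_of_cyclic {C : Type} [Group C] (h : IsCyclic C) (f g : MulAut C) :
    f * g = g * f := by
  obtain ⟨x, hx⟩ := h.exists_generator
  obtain ⟨a, ha⟩ := Subgroup.mem_zpowers_iff.1 (hx (f x))
  obtain ⟨b, hb⟩ := Subgroup.mem_zpowers_iff.1 (hx (g x))
  have h1 : f (g x) = g (f x) := by
    have e1 : f (g x) = (x ^ a) ^ b := by rw [← hb, map_zpow, ← ha]
    have e2 : g (f x) = (x ^ b) ^ a := by rw [← ha, map_zpow, ← hb]
    rw [e1, e2, ← zpow_mul, ← zpow_mul, mul_comm]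
  ext y
  obtain ⟨n, rfl⟩ := Subgroup.mem_zpowers_iff.1 (hx y)
  simp only [MulAut.mul_apply, map_zpow]
  rw [h1]

theorem critA : CRIT := by
  rintro H _ ⟨R, hR, hcyc, hn⟩ ⟨K, _, ⟨e⟩⟩
  apply hn
  let ρ : K →* MulAut R := (resChar R hR).comp ((MulAut.congr e).toMonoidHom.comp
    (MulAut.conjNormal (H := commutator K)))
  have hρ : ∀ (k : K) (v : R), ((ρ k v : R) : H) =
      e (MulAut.conjNormal (H := commutator K) k (e.symm (v : H))) := fun k v => rfl
  have hker : ∀ k ∈ commutator K, ρ k = 1 := by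
    intro k hk
    have : commutator K ≤ ρ.ker := by
      rw [commutator_def, Subgroup.commutator_le]
      intro g1 _ g2 _
      rw [MonoidHom.mem_ker, map_commutatorElement, commutatorElement_eq_one_iff_mul_comm]
      exact mulAut_comm_of_cyclic hcyc _ _
    exact this hk
  intro r hr
  rw [Subgroup.mem_center_iff]
  intro h
  have h1 := hρ ((e.symm h : commutator K) : K) ⟨r, hr⟩
  rw [hker _ (e.symm h).2] at h1
  have h2 : MulAut.conjNormal (H := commutator K) ((e.symm h : commutator K) : K) (e.symm r) =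
      (e.symm h) * (e.symm r) * (e.symm h)⁻¹ := by
    ext
    simp [MulAut.conjNormal_apply]
  have h3 : r = h * r * h⁻¹ := by
    have h4 := h1
    simp only [MulAut.one_apply] at h4
    rw [h2, map_mul, map_mul, map_inv, e.apply_symm_apply, e.apply_symm_apply] at h4
    exact h4
  conv_rhs => rw [h3]
  group

end R29ID
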