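import Pool.Agent.R29.IDF.Defs

/-! ID-D8: the dihedral group of order 8. -/

namespace R29ID.D8x
open scoped commutatorElement
open DihedralGroup

abbrev D := DihedralGroup 4

def W : Subgroup D where
  carrier := {x | x = r 0 ∨ x = r 2}
  mul_mem' := by
    rintro a b (rfl | rfl) (rfl | rfl)
    · left; decide +kernel
    · right; decide +kernel
    · right; decide +kernel
    · left; decide +kernel
  one_mem' := Or.inl rfl
  inv_mem' := by
    rintro a (rfl | rfl)
    · left; decide +kernel
    · right; decide +kernel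

lemma all_comm : ∀ i j : ZMod 4, ∀ a b : D, (a = r i ∨ a = sr i) → (b = r j ∨ b = sr j) →
    a * b * a⁻¹ * b⁻¹ = r 0 ∨ a * b * a⁻¹ * b⁻¹ = r 2 := by
  rintro i j a b (rfl | rfl) (rfl | rfl)
  · revert i j; decide +kernel
  · revert i j; decide +kernel
  · revert i j; decide +kernel
  · revert i j; decide +kernel

lemma comm_le : commutator D ≤ W := by
  refine Subgroup.commutator_le.2 ?_
  intro a _ b _
  rw [commutatorElement_def]
  rcases a with i | i <;> rcases b with j | j
  · exact all_comm i j _ _ (Or.inl rfl) (Or.inl rfl)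
  · exact all_comm i j _ _ (Or.inl rfl) (Or.inr rfl)
  · exact all_comm i j _ _ (Or.inr rfl) (Or.inl rfl)
  · exact all_comm i j _ _ (Or.inr rfl) (Or.inr rfl)

lemma c2 : (r 2 : D) ∈ commutator D := by
  have h : (r 2 : D) = ⁅(sr 0 : D), (r 1 : D)⁆ := by
    rw [commutatorElement_def]
    decide +kernel
  rw [h]
  exact Subgroup.commutator_mem_commutator (Subgroup.mem_top _) (Subgroup.mem_top _)

def hz (x : D) : ZMod 2 := if x = r 2 then 1 else 0

def psi : commutator D →* Multiplicative (ZMod 2) where
  toFun x := Multiplicative.ofAdd (hz x.1)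
  map_one' := by
    show Multiplicative.ofAdd (hz 1) = Multiplicative.ofAdd 0
    congr 1
  map_mul' x y := by
    rw [← ofAdd_add]
    congr 1
    show hz (x.1 * y.1) = hz x.1 + hz y.1
    rcases comm_le x.2 with h | h <;> rcases comm_le y.2 with k | k <;> rw [h, k] <;>
      decide +kernel

lemma psi_bij : Function.Bijective psi := by
  constructor
  · intro x y hxy
    have h0 : hz x.1 = hz y.1 := Multiplicative.ofAdd.injective hxy
    apply Subtype.ext
    rcases comm_le x.2 with h | h <;> rcases comm_le y.2 with k | k <;> rw [h, k] at h0 ⊢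
    · exact absurd h0 (by decide +kernel)
    · exact absurd h0 (by decide +kernel)
  · intro v
    obtain ⟨v, rfl⟩ := Multiplicative.ofAdd.surjective v
    have key : ∀ a : ZMod 2, ∃ x : commutator D, hz x.1 = a := by
      intro a
      fin_cases a
      · exact ⟨1, by decide +kernel⟩
      · exact ⟨⟨_, c2⟩, by decide +kernel⟩
    obtain ⟨x, hx⟩ := key v
    exact ⟨x, by show Multiplicative.ofAdd (hz x.1) = _; rw [hx]⟩

lemma fin : ∀ i : ZMod 4, ((r i : D) * r i ≠ 1 → (r i : D) = r 1 ∨ (r i : D) = (r 1)⁻¹) ∧
    ((sr i : D) * sr i = 1) := by decide +kernel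

end R29ID.D8x

namespace R29ID
open D8x DihedralGroup

theorem d8 : D8 := by
  refine ⟨⟨MulEquiv.ofBijective psi psi_bij⟩, Subgroup.zpowers (r 1), ?_, inferInstance, ?_⟩
  · rw [Subgroup.characteristic_iff_le_comap]
    intro φ
    rw [Subgroup.zpowers_le]
    show φ (r 1) ∈ Subgroup.zpowers (r 1)
    have hsq : φ (r 1) * φ (r 1) ≠ 1 := by
      rw [← map_mul]
      intro h
      have h' := φ.injective (h.trans (map_one φ).symm)
      revert h'
      decide +kernel
    generalize φ (r 1) = x at hsq ⊢
    rcases x with i | i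
    · rcases (fin i).1 hsq with h | h
      · rw [h]; exact Subgroup.mem_zpowers _
      · rw [h]; exact inv_mem (Subgroup.mem_zpowers _)
    · exact absurd (fin i).2 hsq
  · intro h
    have h1 := h (Subgroup.mem_zpowers (r 1 : D))
    rw [Subgroup.mem_center_iff] at h1
    have h2 := h1 (sr 0)
    revert h2
    decide +kernel

end R29ID
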