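import Pool.Agent.R29.IDF.Defs

/-! ID-DIHR (MP_dbca9e_al). -/

set_option autoImplicit false

namespace R29ID.DIHRx

open DihedralGroup
open scoped commutatorElement

lemma rpow {n : ℕ} (a : ZMod n) (k : ℕ) : (r a : DihedralGroup n) ^ k = r ((k : ZMod n) * a) := by
  induction k with
  | zero => simp
  | succ k ih =>
    rw [pow_succ, ih, r_mul_r]
    congr 1
    push_cast
    ring

lemma comm_rot {n : ℕ} (a b : DihedralGroup n) : ∃ i, ⁅a, b⁆ = r i := by
  rcases a with i | i <;> rcases b with j | j <;>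
    simp [commutatorElement_def]
  exact ⟨0, rfl⟩

lemma comm_r_sr {n : ℕ} (i j : ZMod n) : ⁅(r i : DihedralGroup n), sr j⁆ = r (2 * i) := by
  rw [commutatorElement_def]
  simp only [inv_r, inv_sr, r_mul_sr, sr_mul_r, sr_mul_sr]
  congr 1
  ring

lemma comm_r_r {n : ℕ} (i j : ZMod n) : ⁅(r i : DihedralGroup n), r j⁆ = 1 := by
  rw [commutatorElement_def]
  simp only [inv_r, r_mul_r]
  rw [one_def]
  congr 1
  ring

/-- rotations times the centre -/
def KK (n : ℕ) (Y : Type*) [Group Y] : Subgroup (DihedralGroup n × Y) where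
  carrier := {g | (∃ i, g.1 = r i) ∧ g.2 ∈ Subgroup.center Y}
  one_mem' := ⟨⟨0, rfl⟩, one_mem _⟩
  mul_mem' := by
    rintro a b ⟨⟨i, hi⟩, ha⟩ ⟨⟨j, hj⟩, hb⟩
    exact ⟨⟨i + j, by rw [Prod.fst_mul, hi, hj, r_mul_r]⟩, mul_mem ha hb⟩
  inv_mem' := by
    rintro a ⟨⟨i, hi⟩, ha⟩
    exact ⟨⟨-i, by rw [Prod.fst_inv, hi, inv_r]⟩, inv_mem ha⟩

lemma comm_le {n : ℕ} {Y : Type*} [Group Y] (hY : commutator Y ≤ Subgroup.center Y) :
    commutator (DihedralGroup n × Y) ≤ KK n Y := by
  rw [commutator_def, Subgroup.commutator_le]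
  intro g _ h _
  refine ⟨comm_rot g.1 h.1, hY ?_⟩
  exact Subgroup.commutator_mem_commutator (Subgroup.mem_top g.2) (Subgroup.mem_top h.2)

lemma core {n : ℕ} [NeZero n] (h4 : (4 : ZMod n) ≠ 0) (Y : Type*) [Group Y]
    (hY : commutator Y ≤ Subgroup.center Y) :
    ∃ R : Subgroup (DihedralGroup n × Y), R.Characteristic ∧ IsCyclic R ∧
      ¬ R ≤ Subgroup.center (DihedralGroup n × Y) := by
  set G := DihedralGroup n × Y with hG
  have h2mem : ((r 2, 1) : G) ∈ commutator G := by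
    have : ((r 2, 1) : G) = ⁅((r 1, 1) : G), ((sr 0, 1) : G)⁆ := by
      refine Prod.ext ?_ ?_
      · change r 2 = ⁅(r 1 : DihedralGroup n), sr 0⁆
        rw [comm_r_sr, mul_one]
      · change (1 : Y) = ⁅(1 : Y), (1 : Y)⁆
        simp
    rw [this]
    exact Subgroup.commutator_mem_commutator (Subgroup.mem_top _) (Subgroup.mem_top _)
  have hnc : ∀ (i : ZMod n) (y : Y), ((r 2, 1) : G) * (sr i, y) ≠ (sr i, y) * (r 2, 1) := by
    intro i y h
    have h1 := congrArg Prod.fst h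
    simp only [Prod.fst_mul, r_mul_sr, sr_mul_r] at h1
    have h2 := sr.inj h1
    apply h4
    have : (i + 2) - (i - 2) = (4 : ZMod n) := by ring
    rw [← this, ← h2, sub_self]
  have hC : ∀ g : G, g ∈ Subgroup.centralizer (commutator G : Set G) ↔ ∃ i, g.1 = r i := by
    intro g
    constructor
    · intro hg
      rcases hg1 : g.1 with i | i
      · exact ⟨i, rfl⟩
      · exfalso
        have := Subgroup.mem_centralizer_iff.mp hg _ h2mem
        have hgg : g = (sr i, g.2) := Prod.ext hg1 rfl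
        rw [hgg] at this
        exact hnc i g.2 this
    · rintro ⟨i, hi⟩
      rw [Subgroup.mem_centralizer_iff]
      intro h hh
      obtain ⟨⟨j, hj⟩, hc⟩ := comm_le hY hh
      refine Prod.ext ?_ ?_
      · rw [Prod.fst_mul, Prod.fst_mul, hi, hj, r_mul_r, r_mul_r, add_comm]
      · rw [Prod.snd_mul, Prod.snd_mul]
        exact (Subgroup.mem_center_iff.mp hc g.2).symm
  set C := Subgroup.centralizer (commutator G : Set G) with hCdef
  set Z := C ⊓ Subgroup.centralizer (C : Set G) with hZdef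
  have hZ : ∀ g ∈ Z, (∃ i, g.1 = r i) ∧ g.2 ∈ Subgroup.center Y := by
    rintro g ⟨h1, h2⟩
    refine ⟨(hC g).mp h1, ?_⟩
    rw [Subgroup.mem_center_iff]
    intro y
    have h3 : ((1, y) : G) ∈ C := (hC _).mpr ⟨0, rfl⟩
    have h4 := Subgroup.mem_centralizer_iff.mp h2 _ h3
    exact congrArg Prod.snd h4
  have hr1 : ((r 1, 1) : G) ∈ Z := by
    refine Subgroup.mem_inf.mpr ⟨(hC _).mpr ⟨1, rfl⟩, ?_⟩
    rw [Subgroup.mem_centralizer_iff]
    intro h hh
    obtain ⟨j, hj⟩ := (hC h).mp hh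
    refine Prod.ext ?_ ?_
    · rw [Prod.fst_mul, Prod.fst_mul, hj, r_mul_r, r_mul_r, add_comm]
    · rw [Prod.snd_mul, Prod.snd_mul, mul_one, one_mul]
  have hR : ⁅Z, (⊤ : Subgroup G)⁆ = Subgroup.zpowers ((r 2, 1) : G) := by
    apply le_antisymm
    · rw [Subgroup.commutator_le]
      intro g hg h _
      obtain ⟨⟨i, hi⟩, hc⟩ := hZ g hg
      have hsnd : ⁅g.2, h.2⁆ = 1 := by
        rw [commutatorElement_eq_one_iff_mul_comm]
        exact (Subgroup.mem_center_iff.mp hc h.2).symm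
      have hpr : ⁅g, h⁆ = (⁅g.1, h.1⁆, ⁅g.2, h.2⁆) := rfl
      rw [hpr, hsnd, hi]
      rcases h.1 with j | j
      · rw [comm_r_r]
        exact one_mem _
      · rw [comm_r_sr]
        refine Subgroup.mem_zpowers_iff.mpr ⟨(i.val : ℤ), ?_⟩
        rw [zpow_natCast]
        refine Prod.ext ?_ ?_
        · rw [Prod.pow_fst]
          change (r 2 : DihedralGroup n) ^ i.val = r (2 * i)
          rw [rpow, ZMod.natCast_zmod_val, mul_comm]
        · rw [Prod.pow_snd]
          exact one_pow _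
    · rw [Subgroup.zpowers_le]
      have : ((r 2, 1) : G) = ⁅((r 1, 1) : G), ((sr 0, 1) : G)⁆ := by
        refine Prod.ext ?_ ?_
        · change r 2 = ⁅(r 1 : DihedralGroup n), sr 0⁆
          rw [comm_r_sr, mul_one]
        · change (1 : Y) = ⁅(1 : Y), (1 : Y)⁆
          simp
      rw [this]
      exact Subgroup.commutator_mem_commutator hr1 (Subgroup.mem_top _)
  refine ⟨⁅Z, (⊤ : Subgroup G)⁆, inferInstance, ?_, ?_⟩
  · rw [hR]
    infer_instance
  · intro hle
    have h1 : ((r 2, 1) : G) ∈ Subgroup.center G := hle (by rw [hR]; exact Subgroup.mem_zpowers _)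
    exact hnc 0 1 (Subgroup.mem_center_iff.mp h1 (sr 0, 1)).symm

/-- ID-DIHR -/
theorem dihr : DIHR := by
  intro m hm Y _ hY
  haveI : NeZero (2 * m) := ⟨by omega⟩
  refine core ?_ Y hY
  intro h
  have h1 : ((4 : ℕ) : ZMod (2 * m)) = 0 := by exact_mod_cast h
  rw [ZMod.natCast_eq_zero_iff] at h1
  have := Nat.le_of_dvd (by norm_num) h1
  omega

end R29ID.DIHRx

namespace R29ID

/-- ID-DIHR -/
theorem dihr : DIHR := DIHRx.dihr

end R29ID
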