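import Pool.Agent.R29.IDF.Defs

namespace R29ID.NSDp

/-- restriction of automorphisms to a characteristic subgroup -/
def resChar {H : Type} [Group H] (C : Subgroup H) (hC : C.Characteristic) : MulAut H →* MulAut C where
  toFun φ := (φ.subgroupMap C).trans
    (MulEquiv.subgroupCongr (Subgroup.characteristic_iff_map_eq.1 hC φ))
  map_one' := by ext x; rfl
  map_mul' φ ψ := by ext x; rfl

theorem resChar_apply {H : Type} [Group H] (C : Subgroup H) (hC : C.Characteristic)
    (φ : MulAut H) (x : C) : ((resChar C hC φ x : C) : H) = φ x := rfl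

end R29ID.NSDp

open R29ID.NSDp in
theorem R29ID.nsd : R29ID.NSD := by
  rintro H _ V hV hD hc ⟨K, _, ⟨e⟩⟩
  apply hc
  have hCH : (commutator H).Characteristic := inferInstance
  let ρ : K →* MulAut V := (resChar V hV).comp ((resChar (commutator H) hCH).comp
    ((MulAut.congr e).toMonoidHom.comp (MulAut.conjNormal (H := commutator K))))
  have hρ : ∀ (k : K) (v : V), (((ρ k v : V) : commutator H) : H) =
      e (MulAut.conjNormal (H := commutator K) k (e.symm ((v : commutator H) : H))) :=
    fun k v => rfl
  have hker : ∀ k ∈ derivedSeries K 2, ρ k = 1 := by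
    intro k hk
    have h1 : ρ k ∈ derivedSeries (MulAut V) 2 :=
      map_derivedSeries_le_derivedSeries ρ 2 (Subgroup.mem_map_of_mem ρ hk)
    rw [hD] at h1
    exact Subgroup.mem_bot.1 h1
  have hmem : ∀ n ∈ commutator H, ((e.symm n : commutator K) : K) ∈ derivedSeries K 2 := by
    intro n hn
    have h1 : (commutator H).map (((commutator K).subtype).comp e.symm.toMonoidHom) ≤
        derivedSeries K 2 := by
      have h2 : derivedSeries K 2 = ⁅commutator K, commutator K⁆ := by
        rw [derivedSeries_succ, derivedSeries_one]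
      rw [h2, commutator_def H, Subgroup.map_commutator]
      have h3 : (⊤ : Subgroup H).map (((commutator K).subtype).comp e.symm.toMonoidHom) ≤
          commutator K := by
        rintro _ ⟨x, _, rfl⟩
        exact (e.symm x).2
      exact Subgroup.commutator_mono h3 h3
    exact h1 ⟨n, hn, rfl⟩
  intro n _
  rw [Subgroup.mem_centralizer_iff]
  intro v hv
  have h1 := hker _ (hmem n.1 n.2)
  have h2 := hρ ((e.symm n.1 : commutator K) : K) ⟨v, hv⟩
  rw [h1] at h2
  have h3 : MulAut.conjNormal (H := commutator K) ((e.symm n.1 : commutator K) : K)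
      (e.symm ((v : commutator H) : H)) = e.symm n.1 * e.symm (v : H) * (e.symm n.1)⁻¹ := by
    ext
    simp [MulAut.conjNormal_apply]
  rw [h3] at h2
  simp only [MulAut.one_apply, map_mul, map_inv, MulEquiv.apply_symm_apply] at h2
  apply Subtype.ext
  simp only [Subgroup.coe_mul]
  have h4 : (v : H) * n = n * v := by
    conv_lhs => rw [h2]
    group
  exact h4

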