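import Pool.Agent.R29.IDF.Defs

/-! ID-P2: a group of order 64. -/

namespace R29ID.P2x
open scoped commutatorElement

/-- `2 (j g + binom(j,2) f)` in `ZMod 4` -/
def T (j : ZMod 4) (f g : ZMod 2) : ZMod 4 :=
  if (ZMod.val j * ZMod.val g + (ZMod.val j * (ZMod.val j - 1) / 2) * ZMod.val f) % 2 = 1 then 2 else 0

def V (j : ZMod 4) (f : ZMod 2) : ZMod 2 := if ZMod.val j % 2 = 1 then f else 0

@[ext] structure P where
  z : ZMod 4
  f : ZMod 2
  g : ZMod 2
  j : ZMod 4
  deriving DecidableEq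

instance : Mul P := ⟨fun a b => ⟨a.z + b.z + T a.j b.f b.g, a.f + b.f, a.g + b.g + V a.j b.f, a.j + b.j⟩⟩
instance : One P := ⟨⟨0, 0, 0, 0⟩⟩
instance : Inv P := ⟨fun a => ⟨-a.z + T (-a.j) a.f a.g, a.f, a.g + V a.j a.f, -a.j⟩⟩

lemma mul_def (a b : P) :
    a * b = ⟨a.z + b.z + T a.j b.f b.g, a.f + b.f, a.g + b.g + V a.j b.f, a.j + b.j⟩ := rfl
lemma one_def : (1 : P) = ⟨0, 0, 0, 0⟩ := rfl
lemma inv_def (a : P) : a⁻¹ = ⟨-a.z + T (-a.j) a.f a.g, a.f, a.g + V a.j a.f, -a.j⟩ := rfl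

lemma T_assoc : ∀ (j1 j2 : ZMod 4) (f2 f3 g2 g3 : ZMod 2),
    T j2 f3 g3 + T j1 (f2 + f3) (g2 + g3 + V j2 f3) = T j1 f2 g2 + T (j1 + j2) f3 g3 := by
  decide +kernel

lemma V_assoc : ∀ (j1 j2 : ZMod 4) (f2 f3 : ZMod 2),
    V j2 f3 + V j1 (f2 + f3) = V j1 f2 + V (j1 + j2) f3 := by
  decide +kernel

lemma T_one : ∀ f g : ZMod 2, T 0 f g = 0 := by decide +kernel
lemma V_one : ∀ f : ZMod 2, V 0 f = 0 := by decide +kernel
lemma T_inv : ∀ (j : ZMod 4) (f g : ZMod 2), T j f g + T j f g = 0 := by decide +kernel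
lemma V_inv : ∀ (j : ZMod 4) (f : ZMod 2), V j f + V (-j) f = 0 := by decide +kernel
lemma two_zero : ∀ f : ZMod 2, f + f = 0 := by decide +kernel

instance : Group P :=
  Group.ofLeftAxioms
    (by
      intro a b c
      simp only [mul_def]
      ext
      · show a.z + b.z + T a.j b.f b.g + c.z + T (a.j + b.j) c.f c.g
          = a.z + (b.z + c.z + T b.j c.f c.g) + T a.j (b.f + c.f) (b.g + c.g + V b.j c.f)
        have := T_assoc a.j b.j b.f c.f b.g c.g
        linear_combination -this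
      · exact add_assoc _ _ _
      · show a.g + b.g + V a.j b.f + c.g + V (a.j + b.j) c.f
          = a.g + (b.g + c.g + V b.j c.f) + V a.j (b.f + c.f)
        have := V_assoc a.j b.j b.f c.f
        linear_combination -this
      · exact add_assoc _ _ _)
    (by
      intro a
      simp only [mul_def, one_def]
      ext
      · show 0 + a.z + T 0 a.f a.g = a.z
        rw [T_one]; simp
      · exact zero_add _
      · show 0 + a.g + V 0 a.f = a.g
        rw [V_one]; simp
      · exact zero_add _)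
    (by
      intro a
      simp only [mul_def, one_def, inv_def]
      ext
      · show -a.z + T (-a.j) a.f a.g + a.z + T (-a.j) a.f a.g = 0
        have := T_inv (-a.j) a.f a.g
        linear_combination this
      · exact two_zero _
      · show a.g + V a.j a.f + a.g + V (-a.j) a.f = 0
        have := V_inv a.j a.f
        have h2 := two_zero a.g
        linear_combination this + h2
      · exact neg_add_cancel _)

instance : Finite P := by
  refine Finite.of_injective (fun a : P => (a.z, a.f, a.g, a.j)) ?_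
  intro a b h
  simp only [Prod.mk.injEq] at h
  obtain ⟨h1, h2, h3, h4⟩ := h
  ext <;> assumption

/-- the candidates for the derived subgroup -/
def W : Subgroup P where
  carrier := {x | x.z + x.z = 0 ∧ x.f = 0 ∧ x.j = 0}
  mul_mem' := by
    rintro ⟨z, f, g, j⟩ ⟨z', f', g', j'⟩ ⟨h1, h2, h3⟩ ⟨k1, k2, k3⟩
    dsimp only at h1 h2 h3 k1 k2 k3
    subst h2 h3 k2 k3
    refine ⟨?_, ?_, ?_⟩
    · show (z + z' + T 0 0 g') + (z + z' + T 0 0 g') = 0
      rw [T_one]
      linear_combination h1 + k1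
    · exact add_zero _
    · exact add_zero _
  one_mem' := ⟨rfl, rfl, rfl⟩
  inv_mem' := by
    rintro ⟨z, f, g, j⟩ ⟨h1, h2, h3⟩
    dsimp only at h1 h2 h3
    subst h2 h3
    refine ⟨?_, rfl, neg_zero⟩
    show (-z + T (-0) 0 g) + (-z + T (-0) 0 g) = 0
    rw [neg_zero, T_one]
    linear_combination -h1

lemma T_even : ∀ (j : ZMod 4) (f g : ZMod 2), T j f g + T j f g = 0 := T_inv

lemma comm_le : commutator P ≤ W := by
  refine Subgroup.commutator_le.2 ?_
  intro a _ b _
  rw [commutatorElement_def]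
  refine ⟨?_, ?_, ?_⟩
  · show ((a.z + b.z + T a.j b.f b.g) + (-a.z + T (-a.j) a.f a.g) + T (a.j + b.j) a.f (a.g + V a.j a.f)
        + (-b.z + T (-b.j) b.f b.g) + T (a.j + b.j + -a.j) b.f (b.g + V b.j b.f))
      + ((a.z + b.z + T a.j b.f b.g) + (-a.z + T (-a.j) a.f a.g) + T (a.j + b.j) a.f (a.g + V a.j a.f)
        + (-b.z + T (-b.j) b.f b.g) + T (a.j + b.j + -a.j) b.f (b.g + V b.j b.f)) = 0
    linear_combination T_inv a.j b.f b.g + T_inv (-a.j) a.f a.g
      + T_inv (a.j + b.j) a.f (a.g + V a.j a.f) + T_inv (-b.j) b.f b.g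
      + T_inv (a.j + b.j + -a.j) b.f (b.g + V b.j b.f)
  · show a.f + b.f + a.f + b.f = 0
    linear_combination two_zero a.f + two_zero b.f
  · show a.j + b.j + -a.j + -b.j = 0
    ring

lemma mem_comm (x a b : P) (h : a * b * a⁻¹ * b⁻¹ = x) : x ∈ commutator P := by
  rw [← h, ← commutatorElement_def]
  exact Subgroup.commutator_mem_commutator (Subgroup.mem_top _) (Subgroup.mem_top _)

lemma c1 : (⟨2, 0, 0, 0⟩ : P) ∈ commutator P :=
  mem_comm _ ⟨0, 0, 0, 1⟩ ⟨0, 0, 1, 0⟩ (by decide +kernel)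

lemma c2 : (⟨0, 0, 1, 0⟩ : P) ∈ commutator P :=
  mem_comm _ ⟨0, 0, 0, 1⟩ ⟨0, 1, 0, 0⟩ (by decide +kernel)

def hz (z : ZMod 4) : ZMod 2 := if z = 2 then 1 else 0

lemma hz_add : ∀ z z' : ZMod 4, z + z = 0 → z' + z' = 0 → hz (z + z') = hz z + hz z' := by
  decide +kernel

lemma hz_inj : ∀ z z' : ZMod 4, z + z = 0 → z' + z' = 0 → hz z = hz z' → z = z' := by
  decide +kernel

def psi : commutator P →* Multiplicative (Fin 2 → ZMod 2) where
  toFun x := Multiplicative.ofAdd ![hz x.1.z, x.1.g]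
  map_one' := by
    show Multiplicative.ofAdd ![hz 0, (0 : ZMod 2)] = Multiplicative.ofAdd 0
    congr 1
    funext i
    fin_cases i
    · show hz 0 = 0
      decide +kernel
    · rfl
  map_mul' x y := by
    obtain ⟨h1, h2, h3⟩ := comm_le x.2
    obtain ⟨k1, k2, k3⟩ := comm_le y.2
    rw [← ofAdd_add]
    congr 1
    funext i
    fin_cases i
    · show hz (x.1.z + y.1.z + T x.1.j y.1.f y.1.g) = hz x.1.z + hz y.1.z
      rw [h3, T_one, add_zero]
      exact hz_add _ _ h1 k1
    · show x.1.g + y.1.g + V x.1.j y.1.f = x.1.g + y.1.g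
      rw [h3, V_one, add_zero]

lemma psi_bij : Function.Bijective psi := by
  constructor
  · intro x y hxy
    obtain ⟨h1, h2, h3⟩ := comm_le x.2
    obtain ⟨k1, k2, k3⟩ := comm_le y.2
    have h := Multiplicative.ofAdd.injective hxy
    have e0 : hz x.1.z = hz y.1.z := congrFun h 0
    have e1 : x.1.g = y.1.g := congrFun h 1
    apply Subtype.ext
    ext
    · exact hz_inj _ _ h1 k1 e0
    · rw [h2, k2]
    · exact e1
    · rw [h3, k3]
  · intro r
    obtain ⟨v, rfl⟩ := Multiplicative.ofAdd.surjective r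
    have key : ∀ a b : ZMod 2, ∃ x : commutator P, hz x.1.z = a ∧ x.1.g = b := by
      intro a b
      fin_cases a <;> fin_cases b
      · exact ⟨1, by decide +kernel, by decide +kernel⟩
      · exact ⟨⟨_, c2⟩, by decide +kernel, by decide +kernel⟩
      · exact ⟨⟨_, c1⟩, by decide +kernel, by decide +kernel⟩
      · exact ⟨⟨_, mul_mem c1 c2⟩, by decide +kernel, by decide +kernel⟩
    obtain ⟨x, h0, h1⟩ := key (v 0) (v 1)
    refine ⟨x, ?_⟩
    show Multiplicative.ofAdd ![hz x.1.z, x.1.g] = Multiplicative.ofAdd v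
    congr 1
    funext i
    fin_cases i
    · exact h0
    · exact h1

def c : P := ⟨1, 0, 1, 0⟩

lemma center_form (x : P) (hx : x ∈ Subgroup.center P) : x.f = 0 ∧ x.g = 0 ∧ x.j = 0 := by
  rw [Subgroup.mem_center_iff] at hx
  have h1 := hx ⟨0, 0, 0, 1⟩
  have h2 := hx ⟨0, 1, 0, 0⟩
  obtain ⟨z, f, g, j⟩ := x
  revert h1 h2
  clear hx
  revert z f g j
  decide +kernel

lemma char_c (φ : P ≃* P) : φ c = c ∨ φ c = c⁻¹ := by
  have hcz : (⟨1, 0, 0, 0⟩ : P) ∈ Subgroup.center P := by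
    rw [Subgroup.mem_center_iff]
    rintro ⟨z, f, g, j⟩
    revert z f g j
    decide +kernel
  have hdec : c = ⟨1, 0, 0, 0⟩ * ⟨0, 0, 1, 0⟩ := by decide +kernel
  have h1 : φ ⟨1, 0, 0, 0⟩ ∈ Subgroup.center P := by
    rw [Subgroup.mem_center_iff] at hcz ⊢
    intro y
    obtain ⟨y', rfl⟩ := φ.surjective y
    rw [← map_mul, ← map_mul, hcz]
  have h2 : φ ⟨0, 0, 1, 0⟩ ∈ commutator P := by
    have : (commutator P).map φ.toMonoidHom ≤ commutator P := by
      rw [commutator_def, Subgroup.map_commutator]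
      exact Subgroup.commutator_mono le_top le_top
    exact this (Subgroup.mem_map_of_mem _ c2)
  obtain ⟨a1, a2, a3⟩ := center_form _ h1
  obtain ⟨b1, b2, b3⟩ := comm_le h2
  have hsq : φ c * φ c ≠ 1 := by
    rw [← map_mul]
    intro h
    have h' := φ.injective (h.trans (map_one φ).symm)
    revert h'
    decide +kernel
  have hnc : ¬ φ c ∈ Subgroup.center P := by
    intro h
    have hc : c ∈ Subgroup.center P := by
      rw [Subgroup.mem_center_iff] at h ⊢
      intro y
      have := h (φ y)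
      rw [← map_mul, ← map_mul] at this
      exact φ.injective this
    have := (center_form _ hc).2.1
    revert this
    decide +kernel
  have hprod : φ c = φ ⟨1, 0, 0, 0⟩ * φ ⟨0, 0, 1, 0⟩ := by rw [← map_mul, ← hdec]
  set u := φ ⟨1, 0, 0, 0⟩
  set w := φ ⟨0, 0, 1, 0⟩
  have huw : φ c = ⟨u.z + w.z, 0, w.g, 0⟩ := by
    rw [hprod, mul_def]
    ext
    · show u.z + w.z + T u.j w.f w.g = u.z + w.z
      rw [a3, T_one, add_zero]
    · show u.f + w.f = 0
      rw [a1, b2, add_zero]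
    · show u.g + w.g + V u.j w.f = w.g
      rw [a2, a3, V_one, add_zero, zero_add]
    · show u.j + w.j = 0
      rw [a3, b3, add_zero]
  have hg : w.g ≠ 0 := by
    intro h
    apply hnc
    rw [huw, h, Subgroup.mem_center_iff]
    generalize u.z + w.z = t
    rintro ⟨z, f, g, j⟩
    revert t z f g j
    decide +kernel
  have fin : ∀ (t : ZMod 4) (g : ZMod 2), g ≠ 0 → (⟨t, 0, g, 0⟩ : P) * ⟨t, 0, g, 0⟩ ≠ 1 →
      (⟨t, 0, g, 0⟩ : P) = c ∨ (⟨t, 0, g, 0⟩ : P) = c⁻¹ := by
    decide +kernel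
  rw [huw] at hsq ⊢
  exact fin _ _ hg hsq

end R29ID.P2x

namespace R29ID
open P2x

theorem p2 : P2 := by
  refine ⟨P2x.P, inferInstance, inferInstance, ⟨MulEquiv.ofBijective psi psi_bij⟩,
    Subgroup.zpowers c, ?_, inferInstance, ?_⟩
  · rw [Subgroup.characteristic_iff_le_comap]
    intro φ
    rw [Subgroup.zpowers_le]
    show φ c ∈ Subgroup.zpowers c
    rcases char_c φ with h | h
    · rw [h]; exact Subgroup.mem_zpowers c
    · rw [h]; exact inv_mem (Subgroup.mem_zpowers c)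
  · intro h
    have := (center_form _ (h (Subgroup.mem_zpowers c))).2.1
    revert this
    decide +kernel

end R29ID
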