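import Pool.Agent.R29.IDF.Asm
import Pool.Agent.R29.IDF.CritA
import Pool.Agent.R29.IDF.UT5
import Pool.Agent.R29.IDF.Heis
import Pool.Agent.R29.IDF.DIHC
import Pool.Agent.R29.IDF.DIHR
import Pool.Agent.R29.IDF.D8A
import Pool.Agent.R29.IDF.P2
import Pool.Agent.R29.IDF.PK
import Pool.Agent.R29.IDF.AB
import Pool.Agent.R29.IDF.Cpl
import Pool.Agent.R29.IDF.NSD
import Pool.Agent.R29.IDF.S4

namespace R29ID

theorem main :
    (∀ (G : Type) [Group G] [Finite G], commutator G ≠ ⊥ →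
      (∀ a ∈ commutator G, ∀ b ∈ commutator G, a * b = b * a) → ¬ PropD G) ∧
    (∀ (G : Type) [Group G] [Finite G] (V : Subgroup (commutator G)), V.Characteristic →
      derivedSeries (MulAut V) 2 = ⊥ →
      ¬ (⊤ : Subgroup (commutator G)) ≤ Subgroup.centralizer (V : Set (commutator G)) →
      PropD G ∧ ¬ Integrable G) ∧
    (∀ (G : Type) [Group G] [Finite G], commutator (commutator G) = ⊤ →
      Subgroup.center (commutator G) = ⊥ →
      (∀ φ : MulAut (commutator G), ∃ g : commutator G, φ = MulAut.conj g) →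
      PropD G ∧ Integrable G) ∧
    (PropD (Equiv.Perm (Fin 4)) ∧ ¬ Integrable (Equiv.Perm (Fin 4))) := by
  refine ⟨fun G _ _ h1 h2 => notPropD_of_abelian critA ut5 heis dihc dihr d8 p2 pk ab G h1 h2,
    fun G _ _ V h1 h2 h3 => propD_of_nsd nsd G V h1 h2 h3,
    fun G _ _ h1 h2 h3 => propD_of_complete cpl G h1 h2 h3, ?_⟩
  obtain ⟨V, h1, h2, h3⟩ := S4.s4v
  exact propD_of_nsd nsd _ V h1 h2 h3

end R29ID
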